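import Mathlib

set_option autoImplicit false

/-!
# MP_efcf90_co, Q1: a finite additive poset without a rank

The additive poset is `F₂⁴` (16 elements, written as the numbers `0, …, 15` with bitwise xor). The
fifteen nonzero elements are partitioned by the five planes of a spread,
`{1, 15, 14}`, `{4, 9, 13}`, `{5, 7, 2}`, `{6, 10, 12}`, `{8, 11, 3}`; in each of them the last element
is the top, the other two are independent, and there are no further relations between different
nonzero elements. A rank would be given by nonnegative integer weights on the characters of `F₂⁴`,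
zero on every character which is `1` on two independent elements. Every character `χ` with
`χ(1) = 1` is `1` on both elements of one of the five independent pairs, so `r(1) = 0`, a
contradiction.
-/

namespace Pool.Agent.Results.MP_efcf90_co.NoRank

/-- Additive posets: a partial order on an abelian group with the axioms (∗) and (∗∗). -/
structure IsAdditivePoset (A : Type) [AddCommGroup A] (le : A → A → Prop) : Prop where
  refl : ∀ a, le a a
  trans : ∀ a b c, le a b → le b c → le a c
  antisymm : ∀ a b, le a b → le b a → a = b
  star : ∀ a b c, le b a → le c a → le (b + c) a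
  starstar : ∀ a b c, le a b → le a c → le a (a + b + c)

/-- Two elements `a`, `b` are independent if `a ≤ a + b`. -/
def Independent {A : Type} [AddCommGroup A] (le : A → A → Prop) (a b : A) : Prop :=
  le a (a + b)

/-- The inclusion-exclusion sum of condition 3. -/
def altSum {A : Type} [AddCommGroup A] (r : A → ℕ) (K : Finset A) : ℤ :=
  ∑ J ∈ K.powerset.filter Finset.Nonempty, (-1 : ℤ) ^ (J.card + 1) * (r (∑ a ∈ J, a) : ℤ)

/-- Ranks of additive posets. -/
structure IsRank {A : Type} [AddCommGroup A] (le : A → A → Prop) (r : A → ℕ) : Prop where
  zero_iff : ∀ a, r a = 0 ↔ a = 0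
  add : ∀ a b, Independent le a b → r (a + b) = r a + r b
  incl : ∀ K : Finset A, K.Nonempty → 0 ≤ altSum r K ∧ (2 : ℤ) ^ (K.card - 1) ∣ altSum r K

/-! ### The example -/

/-- The underlying set of the group `F₂⁴`. -/
def V : Type := Fin 16

instance : DecidableEq V := inferInstanceAs (DecidableEq (Fin 16))
instance : Fintype V := inferInstanceAs (Fintype (Fin 16))

/-- The element with number `i`. -/
def e (i : ℕ) : V := (⟨i % 16, Nat.mod_lt _ (by norm_num)⟩ : Fin 16)

/-- The number of an element. -/
def num (a : V) : ℕ := Fin.val (show Fin 16 from a)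

instance : Add V := ⟨fun a b => e (num a ^^^ num b)⟩
instance : Zero V := ⟨e 0⟩
instance : Neg V := ⟨fun a => a⟩

instance : AddCommGroup V where
  add_assoc := by decide
  zero_add := by decide
  add_zero := by decide
  nsmul := nsmulRec
  zsmul := zsmulRec
  neg_add_cancel := by decide
  add_comm := by decide

/-- The proper relations between nonzero elements. -/
def rel : List (ℕ × ℕ) :=
  [(1, 14), (15, 14), (4, 13), (9, 13), (5, 2), (7, 2), (6, 12), (10, 12), (8, 3), (11, 3)]

/-- The order, as a Boolean function. -/
def leB (a b : V) : Bool := num a == 0 || num a == num b || rel.contains (num a, num b)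

/-- The order. -/
def le (a b : V) : Prop := leB a b = true

instance : DecidableRel le := fun a b => inferInstanceAs (Decidable (leB a b = true))

theorem le_additive : IsAdditivePoset V le where
  refl := by decide
  trans := by decide
  antisymm := by decide
  star := by decide
  starstar := by decide

/-- The sum of condition 3 for a four-element set. -/
theorem altSum4 {A : Type} [AddCommGroup A] [DecidableEq A] (r : A → ℕ) (a b c d : A)
    (hab : a ≠ b) (hac : a ≠ c) (had : a ≠ d) (hbc : b ≠ c) (hbd : b ≠ d) (hcd : c ≠ d) :
    altSum r {a, b, c, d} = r a + r b + r c + r d - r (a + b) - r (a + c) - r (a + d)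
      - r (b + c) - r (b + d) - r (c + d) + r (a + (b + c)) + r (a + (b + d)) + r (a + (c + d))
      + r (b + (c + d)) - r (a + (b + (c + d))) := by
  have h1 : a ∉ ({b, c, d} : Finset A) := by simp [hab, hac, had]
  have h2 : b ∉ ({c, d} : Finset A) := by simp [hbc, hbd]
  have h3 : c ∉ ({d} : Finset A) := by simp [hcd]
  unfold altSum
  rw [Finset.sum_filter]
  simp only [Finset.sum_powerset_insert h1, Finset.sum_powerset_insert h2,
    Finset.sum_powerset_insert h3]
  rw [← insert_empty_eq d]
  simp only [Finset.sum_powerset_insert (Finset.notMem_empty d), Finset.powerset_empty, Finset.sum_singleton]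
  simp [Finset.sum_insert, Finset.card_insert_of_notMem, hab, hac, had, hbc, hbd, hcd]
  ring

theorem e_add (i j : ℕ) : e i + e j = e ((i % 16) ^^^ (j % 16)) := rfl

theorem no_rank (r : V → ℕ) (hr : IsRank le r) : False := by
  have key : ∀ a b c d : V, a ≠ b → a ≠ c → a ≠ d → b ≠ c → b ≠ d → c ≠ d →
      (0 : ℤ) ≤ r a + r b + r c + r d - r (a + b) - r (a + c) - r (a + d)
      - r (b + c) - r (b + d) - r (c + d) + r (a + (b + c)) + r (a + (b + d)) + r (a + (c + d))
      + r (b + (c + d)) - r (a + (b + (c + d))) := by
    intro a b c d hab hac had hbc hbd hcd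
    have h := (hr.incl {a, b, c, d} ⟨a, Finset.mem_insert_self _ _⟩).1
    rwa [altSum4 r a b c d hab hac had hbc hbd hcd] at h
  have k0 := key (e 1) (e 3) (e 5) (e 9) (by decide) (by decide) (by decide)
    (by decide) (by decide) (by decide)
  have k1 := key (e 2) (e 3) (e 6) (e 10) (by decide) (by decide) (by decide)
    (by decide) (by decide) (by decide)
  have k2 := key (e 1) (e 2) (e 5) (e 9) (by decide) (by decide) (by decide)
    (by decide) (by decide) (by decide)
  have k3 := key (e 4) (e 5) (e 6) (e 12) (by decide) (by decide) (by decide)
    (by decide) (by decide) (by decide)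
  have k4 := key (e 1) (e 3) (e 4) (e 9) (by decide) (by decide) (by decide)
    (by decide) (by decide) (by decide)
  have k5 := key (e 1) (e 2) (e 4) (e 9) (by decide) (by decide) (by decide)
    (by decide) (by decide) (by decide)
  have k6 := key (e 8) (e 9) (e 10) (e 12) (by decide) (by decide) (by decide)
    (by decide) (by decide) (by decide)
  have k7 := key (e 1) (e 3) (e 5) (e 8) (by decide) (by decide) (by decide)
    (by decide) (by decide) (by decide)
  have k8 := key (e 1) (e 2) (e 5) (e 8) (by decide) (by decide) (by decide)
    (by decide) (by decide) (by decide)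
  have k9 := key (e 4) (e 5) (e 6) (e 8) (by decide) (by decide) (by decide)
    (by decide) (by decide) (by decide)
  have k10 := key (e 1) (e 3) (e 4) (e 8) (by decide) (by decide) (by decide)
    (by decide) (by decide) (by decide)
  have k11 := key (e 2) (e 3) (e 4) (e 8) (by decide) (by decide) (by decide)
    (by decide) (by decide) (by decide)
  have k12 := key (e 1) (e 2) (e 4) (e 8) (by decide) (by decide) (by decide)
    (by decide) (by decide) (by decide)
  have i0 := hr.add (e 1) (e 15) (by unfold Independent; decide)
  have i1 := hr.add (e 4) (e 9) (by unfold Independent; decide)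
  have i2 := hr.add (e 5) (e 7) (by unfold Independent; decide)
  have i3 := hr.add (e 6) (e 10) (by unfold Independent; decide)
  have i4 := hr.add (e 8) (e 11) (by unfold Independent; decide)
  have hz : r (e 1) ≠ 0 := by
    intro h
    exact absurd ((hr.zero_iff (e 1)).1 h) (by decide)
  simp only [e_add, Nat.reduceMod, Nat.reduceXor] at k0 k1 k2 k3 k4 k5 k6 k7 k8 k9 k10 k11 k12 i0 i1 i2 i3 i4
  omega

/-- Some finite additive poset admits no rank. -/
theorem result : ∃ (A : Type) (_ : AddCommGroup A) (le : A → A → Prop),
    Finite A ∧ IsAdditivePoset A le ∧ ¬ ∃ r : A → ℕ, IsRank le r :=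
  ⟨V, inferInstance, le, inferInstance, le_additive, fun ⟨r, hr⟩ => no_rank r hr⟩

end Pool.Agent.Results.MP_efcf90_co.NoRank
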